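import Mathlib

/-!
# Mealy automata and the weakly reset property: definitions (problem MP_5b5905_lc)
-/

namespace Pool.Agent.Lib.MP_5b5905_lc

/-- A Mealy automaton with state set `Q` and (input and output) alphabet `A`: `δ` is the
transition function, `out` is the output function. -/
structure Mealy (Q A : Type) where
  /-- The transition function. -/
  δ : Q → A → Q
  /-- The output function. -/
  out : Q → A → A

variable {Q A : Type}

/-- The state `q · u` reached from `q` after reading `u`. -/
def Mealy.next (M : Mealy Q A) : Q → List A → Q
  | q, [] => q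
  | q, a :: u => M.next (M.δ q a) u

/-- The length-preserving map computed from the state `q`. -/
def Mealy.act (M : Mealy Q A) : Q → List A → List A
  | _, [] => []
  | q, a :: u => M.out q a :: M.act (M.δ q a) u

/-- The set of reset words: the words `u` for which `Q · u` has exactly one element. -/
def Mealy.Syn (M : Mealy Q A) : Set (List A) :=
  {u | (Set.range fun q => M.next q u).ncard = 1}

/-- The automaton is synchronizing. -/
def Mealy.Synchronizing (M : Mealy Q A) : Prop := M.Syn.Nonempty

/-- The automaton is weakly reset: it is synchronizing and some nonempty two-sided ideal `H` of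
the free monoid, contained in the set of reset words, is mapped into itself by all maps computed
from the states. -/
def Mealy.WeaklyReset (M : Mealy Q A) : Prop :=
  M.Synchronizing ∧ ∃ H : Set (List A), H.Nonempty ∧ H ⊆ M.Syn ∧
    (∀ x y : List A, ∀ u ∈ H, x ++ u ++ y ∈ H) ∧ ∀ q : Q, ∀ u ∈ H, M.act q u ∈ H

/-- `T` is the table of a Mealy automaton with `n` states and `m` letters: it has `n` rows (one
for each state) with `m` entries each (one for each letter), and each entry is a pair of a number
below `n` (the next state) and a number below `m` (the output letter). -/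
def IsTable (n m : ℕ) (T : List (List (ℕ × ℕ))) : Prop :=
  T.length = n ∧ ∀ r ∈ T, r.length = m ∧ ∀ e ∈ r, e.1 < n ∧ e.2 < m

/-- The entry of the table in row `i` and column `j`. -/
def entry (T : List (List (ℕ × ℕ))) (i j : ℕ) : ℕ × ℕ := (T.getD i []).getD j (0, 0)

theorem IsTable.entry_lt {n m : ℕ} {T : List (List (ℕ × ℕ))} (h : IsTable n m T) {i j : ℕ}
    (hi : i < n) (hj : j < m) : (entry T i j).1 < n ∧ (entry T i j).2 < m := by
  obtain ⟨h1, h2⟩ := h
  have hi' : i < T.length := by omega
  have e1 : T.getD i [] = T[i] := by simp [List.getD, hi']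
  obtain ⟨h3, h4⟩ := h2 T[i] (List.getElem_mem hi')
  have hj' : j < T[i].length := by omega
  have e2 : T[i].getD j (0, 0) = T[i][j] := by simp [List.getD, hj']
  unfold entry
  rw [e1, e2]
  exact h4 _ (List.getElem_mem hj')

/-- The Mealy automaton given by a table, with states `0, …, n - 1` and letters
`0, …, m - 1`. -/
def ofTable (n m : ℕ) (T : List (List (ℕ × ℕ))) (h : IsTable n m T) : Mealy (Fin n) (Fin m) where
  δ q a := ⟨(entry T q a).1, (h.entry_lt q.2 a.2).1⟩
  out q a := ⟨(entry T q a).2, (h.entry_lt q.2 a.2).2⟩

end Pool.Agent.Lib.MP_5b5905_lc
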