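import Pool.Agent.Lib.MP_5b5905_lc.Defs
import Pool.Agent.Lib.Halt56.TM0

section

namespace Pool.Agent.Lib.MP_5b5905_lc

variable {Q A : Type}

namespace Mealy

variable (M : Mealy Q A)

theorem next_append (q : Q) (u v : List A) : M.next q (u ++ v) = M.next (M.next q u) v := by
  induction u generalizing q with
  | nil => rfl
  | cons a u ih => exact ih _

theorem act_append (q : Q) (u v : List A) :
    M.act q (u ++ v) = M.act q u ++ M.act (M.next q u) v := by
  induction u generalizing q with
  | nil => rfl
  | cons a u ih =>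
    rw [List.cons_append]
    simp only [act, next, List.cons_append]
    rw [ih]

/-- Iterated action. -/
def acts : List Q → List A → List A
  | [], u => u
  | q :: qs, u => acts qs (M.act q u)

theorem acts_append (qs rs : List Q) (u : List A) :
    M.acts (qs ++ rs) u = M.acts rs (M.acts qs u) := by
  induction qs generalizing u with
  | nil => rfl
  | cons q qs ih => exact ih _

theorem mem_Syn [Nonempty Q] {u : List A} : u ∈ M.Syn ↔ ∃ p, ∀ q, M.next q u = p := by
  unfold Syn
  rw [Set.mem_ofPred_eq, Set.ncard_eq_one]
  constructor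
  · rintro ⟨p, hp⟩
    refine ⟨p, fun q => ?_⟩
    have : M.next q u ∈ Set.range fun q => M.next q u := ⟨q, rfl⟩
    rw [hp] at this
    exact this
  · rintro ⟨p, hp⟩
    refine ⟨p, ?_⟩
    ext x
    constructor
    · rintro ⟨q, rfl⟩
      exact hp q
    · intro hx
      obtain ⟨q⟩ := ‹Nonempty Q›
      exact ⟨q, by rw [hx]; exact hp q⟩

theorem Syn_ideal [Nonempty Q] {u : List A} (hu : u ∈ M.Syn) (x y : List A) :
    x ++ u ++ y ∈ M.Syn := by
  rw [mem_Syn] at hu ⊢
  obtain ⟨p, hp⟩ := hu
  refine ⟨M.next p y, fun q => ?_⟩
  rw [next_append, next_append, hp]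

theorem acts_mid (qs : List Q) : ∀ (x u y : List A), ∃ x' qs' y',
    M.acts qs (x ++ u ++ y) = x' ++ M.acts qs' u ++ y' := by
  induction qs with
  | nil => intro x u y; exact ⟨x, [], y, rfl⟩
  | cons q qs ih =>
    intro x u y
    obtain ⟨x', qs', y', h⟩ := ih (M.act q x) (M.act (M.next q x) u) (M.act (M.next q (x ++ u)) y)
    refine ⟨x', M.next q x :: qs', y', ?_⟩
    show M.acts qs (M.act q (x ++ u ++ y)) = _
    rw [act_append, act_append, h]
    rfl

theorem weaklyReset_iff [Nonempty Q] : M.WeaklyReset ↔ ∃ u, ∀ qs, M.acts qs u ∈ M.Syn := by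
  constructor
  · rintro ⟨-, H, ⟨u, hu⟩, h1, -, h2⟩
    refine ⟨u, fun qs => h1 ?_⟩
    induction qs generalizing u with
    | nil => exact hu
    | cons q qs ih => exact ih _ (h2 q u hu)
  · rintro ⟨u, hu⟩
    refine ⟨⟨u, hu []⟩, {u | ∀ qs, M.acts qs u ∈ M.Syn}, ⟨u, hu⟩, fun v hv => hv [], ?_, ?_⟩
    · intro x y v hv qs
      obtain ⟨x', qs', y', h⟩ := M.acts_mid qs x v y
      rw [h]
      exact M.Syn_ideal (hv qs') _ _
    · intro q v hv qs
      exact hv (q :: qs)

/-- Isomorphic automata. -/
theorem weaklyReset_iso {Q' A' : Type} [Nonempty Q] [Nonempty Q'] {M : Mealy Q A}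
    {M' : Mealy Q' A'} (e : Q ≃ Q') (f : A ≃ A') (h1 : ∀ q a, M'.δ (e q) (f a) = e (M.δ q a))
    (h2 : ∀ q a, M'.out (e q) (f a) = f (M.out q a)) : M.WeaklyReset → M'.WeaklyReset := by
  rw [weaklyReset_iff, weaklyReset_iff]
  have n1 : ∀ u q, M'.next (e q) (u.map f) = e (M.next q u) := by
    intro u
    induction u with
    | nil => intro q; rfl
    | cons a u ih => intro q; simp only [List.map_cons, next, h1, ih]
  have n2 : ∀ u q, M'.act (e q) (u.map f) = (M.act q u).map f := by
    intro u
    induction u with
    | nil => intro q; rfl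
    | cons a u ih => intro q; simp only [List.map_cons, act, h1, h2, ih]
  have n3 : ∀ qs u, M'.acts (qs.map e) (u.map f) = (M.acts qs u).map f := by
    intro qs
    induction qs with
    | nil => intro u; rfl
    | cons q qs ih => intro u; simp only [List.map_cons, acts, n2, ih]
  rintro ⟨u, hu⟩
  refine ⟨u.map f, fun qs => ?_⟩
  have : qs = (qs.map e.symm).map e := by simp
  rw [this, n3]
  obtain ⟨p, hp⟩ := (mem_Syn M).mp (hu (qs.map e.symm))
  refine (mem_Syn M').mpr ⟨e p, fun q => ?_⟩
  obtain ⟨q, rfl⟩ := e.surjective q
  rw [n1, hp]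

end Mealy

/-! ### The automaton of a drifting cellular system -/

/-- A drifting cellular system. -/
structure Sys where
  /-- cells -/
  C : Type
  /-- the blank cell -/
  bl : C
  /-- the local rule -/
  F : C → C → C → C
  /-- halted cells -/
  hlt : C → Bool
  /-- marked cells -/
  mrk : C → Bool
  /-- initial content -/
  E : List C

/-- The letters. -/
inductive Lt (C : Type) : Type
  | lb | lock | z
  | cell (c : C)

/-- The states that do not depend on the length of the initial content. -/
inductive Fx (C : Type) : Type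
  | n0 | n1 | Iun | T | D
  | arm (a b : C)

open Lt Fx

variable (S : Sys)

/-- The state set. -/
abbrev St (S : Sys) : Type := Fx S.C ⊕ Fin (S.E.length + 1)

/-- The transitions from the fixed states; the writing state of index `0` is given by `w`. -/
def trFx {W : Type} (S : Sys) (w : W) : Fx S.C → Lt S.C → (Fx S.C ⊕ W) × Lt S.C
  | n0, a => (.inl n0, a)
  | n1, lock => (.inl n0, lock)
  | n1, a => (.inl n1, a)
  | Iun, lb => (.inr w, lb)
  | Iun, lock => (.inl n0, lock)
  | Iun, z => (.inl Iun, z)
  | Iun, cell c => (.inl Iun, cell c)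
  | T, lb => (.inl (arm S.bl S.bl), lb)
  | T, lock => (.inl n0, z)
  | T, z => (.inl T, z)
  | T, cell c => (.inl T, cell c)
  | D, lb => (.inl (arm S.bl S.bl), lb)
  | D, lock => (.inl n0, lock)
  | D, z => (.inl T, z)
  | D, cell c => (.inl D, cell c)
  | arm _ _, lb => (.inl (arm S.bl S.bl), lb)
  | arm _ b, lock => (.inl n0, if S.mrk b then z else lock)
  | arm _ _, z => (.inl T, z)
  | arm a b, cell c => if S.hlt c then (.inl D, cell c) else (.inl (arm b c), cell (S.F a b c))

/-- The transitions from the writing states. -/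
def trWr (S : Sys) (k : Fin (S.E.length + 1)) : Lt S.C → St S × Lt S.C
  | lb => (.inr 0, lb)
  | lock => (.inl n0, if (k : ℕ) < S.E.length then z else lock)
  | z => (.inl Iun, z)
  | cell _ => (.inr ⟨min (k + 1) S.E.length, by omega⟩, cell (S.E.getD k S.bl))

/-- The Mealy automaton of the system. -/
def mealy (S : Sys) : Mealy (St S) (Lt S.C) where
  δ q a := match q with
    | .inl x => (trFx S (0 : Fin (S.E.length + 1)) x a).1
    | .inr k => (trWr S k a).1
  out q a := match q with
    | .inl x => (trFx S (0 : Fin (S.E.length + 1)) x a).2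
    | .inr k => (trWr S k a).2

instance : Nonempty (St S) := ⟨.inl n0⟩

/-- a pass over the cells -/
def pass (S : Sys) : S.C → S.C → List S.C → List S.C
  | _, _, [] => []
  | a, b, c :: w => S.F a b c :: pass S b c w

/-- initial cells from index `k` on, `n` of them -/
def ini (S : Sys) : ℕ → ℕ → List S.C
  | _, 0 => []
  | k, n + 1 => S.E.getD k S.bl :: ini S (k + 1) n

/-- the content of `m` cells at time `t` -/
def W (S : Sys) (m t : ℕ) : List S.C := (pass S S.bl S.bl)^[t] (ini S 0 m)

theorem pass_length (a b : S.C) (w : List S.C) : (pass S a b w).length = w.length := by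
  induction w generalizing a b with
  | nil => rfl
  | cons c w ih => simp [pass, ih]

theorem ini_length (k n : ℕ) : (ini S k n).length = n := by
  induction n generalizing k with
  | zero => rfl
  | succ n ih => simp [ini, ih]

theorem W_succ (m t : ℕ) : W S m (t + 1) = pass S S.bl S.bl (W S m t) := by
  simp [W, Function.iterate_succ_apply']

theorem W_length (m t : ℕ) : (W S m t).length = m := by
  induction t with
  | zero => exact ini_length S 0 m
  | succ t ih => rw [W_succ, pass_length, ih]

/-- The letters of a list of cells. -/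
abbrev cs {C : Type} (w : List C) : List (Lt C) := w.map Lt.cell

theorem next_n0 (u : List (Lt S.C)) : (mealy S).next (.inl n0) u = .inl n0 := by
  induction u with
  | nil => rfl
  | cons a u ih => exact ih

theorem act_n0 (u : List (Lt S.C)) : (mealy S).act (.inl n0) u = u := by
  induction u with
  | nil => rfl
  | cons a u ih => exact congrArg (a :: ·) ih

theorem next_cells (x : Fx S.C) (hx : x = n1 ∨ x = Iun ∨ x = T ∨ x = D) (w : List S.C) :
    (mealy S).next (.inl x) (cs w) = .inl x ∧ (mealy S).act (.inl x) (cs w) = cs w := by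
  induction w with
  | nil => exact ⟨rfl, rfl⟩
  | cons c w ih =>
    rcases hx with rfl | rfl | rfl | rfl <;> exact ⟨ih.1, congrArg (_ :: ·) ih.2⟩

theorem run_arm (w : List S.C) (hw : ∀ c ∈ w, S.hlt c = false) (a b : S.C) :
    (∃ a', (mealy S).next (.inl (arm a b)) (cs w) = .inl (arm a' (w.getLastD b))) ∧
      (mealy S).act (.inl (arm a b)) (cs w) = cs (pass S a b w) := by
  induction w generalizing a b with
  | nil => exact ⟨⟨a, rfl⟩, rfl⟩
  | cons c w ih =>
    have hc := hw c (by simp)
    obtain ⟨⟨a', h1⟩, h2⟩ := ih (fun c hc => hw c (by simp [hc])) b c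
    have e1 : (mealy S).δ (.inl (arm a b)) (cell c) = .inl (arm b c) := by
      simp [mealy, trFx, hc]
    have e2 : (mealy S).out (.inl (arm a b)) (cell c) = cell (S.F a b c) := by
      simp [mealy, trFx, hc]
    constructor
    · refine ⟨a', ?_⟩
      show (mealy S).next ((mealy S).δ (.inl (arm a b)) (cell c)) (cs w) = _
      rw [e1, h1]
      cases w <;> simp [List.getLastD]
    · show (mealy S).out (.inl (arm a b)) (cell c) ::
        (mealy S).act ((mealy S).δ (.inl (arm a b)) (cell c)) (cs w) = _
      rw [e1, e2, h2]
      rfl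

theorem run_arm_halt (w : List S.C) (hw : ∃ c ∈ w, S.hlt c = true) (a b : S.C) :
    (mealy S).next (.inl (arm a b)) (cs w) = .inl D ∧
      ∃ w', (mealy S).act (.inl (arm a b)) (cs w) = cs w' ∧ w'.length = w.length ∧
        ∃ c ∈ w', S.hlt c = true := by
  induction w generalizing a b with
  | nil => obtain ⟨c, hc, -⟩ := hw; simp at hc
  | cons c w ih =>
    cases hc : S.hlt c with
    | true =>
      have e1 : (mealy S).δ (.inl (arm a b)) (cell c) = .inl D := by
        simp [mealy, trFx, hc]
      have e2 : (mealy S).out (.inl (arm a b)) (cell c) = cell c := by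
        simp [mealy, trFx, hc]
      obtain ⟨h1, h2⟩ := next_cells S D (by simp) w
      refine ⟨?_, c :: w, ?_, rfl, c, by simp, hc⟩
      · show (mealy S).next ((mealy S).δ (.inl (arm a b)) (cell c)) (cs w) = _
        rw [e1, h1]
      · show (mealy S).out (.inl (arm a b)) (cell c) ::
          (mealy S).act ((mealy S).δ (.inl (arm a b)) (cell c)) (cs w) = _
        rw [e1, e2, h2]
        rfl
    | false =>
      have e1 : (mealy S).δ (.inl (arm a b)) (cell c) = .inl (arm b c) := by
        simp [mealy, trFx, hc]
      have e2 : (mealy S).out (.inl (arm a b)) (cell c) = cell (S.F a b c) := by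
        simp [mealy, trFx, hc]
      have hw' : ∃ c ∈ w, S.hlt c = true := by
        obtain ⟨c', hc', hc''⟩ := hw
        rcases List.mem_cons.mp hc' with h | h
        · rw [h, hc] at hc''; simp at hc''
        · exact ⟨c', h, hc''⟩
      obtain ⟨h1, w', h2, h3, c', h4, h5⟩ := ih hw' b c
      refine ⟨?_, S.F a b c :: w', ?_, by simp [h3], c', by simp [h4], h5⟩
      · show (mealy S).next ((mealy S).δ (.inl (arm a b)) (cell c)) (cs w) = _
        rw [e1, h1]
      · show (mealy S).out (.inl (arm a b)) (cell c) ::
          (mealy S).act ((mealy S).δ (.inl (arm a b)) (cell c)) (cs w) = _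
        rw [e1, e2, h2]
        rfl

theorem run_wr (w : List S.C) (k : ℕ) :
    (mealy S).next (.inr ⟨min k S.E.length, by omega⟩) (cs w) =
        .inr ⟨min (k + w.length) S.E.length, by omega⟩ ∧
      (mealy S).act (.inr ⟨min k S.E.length, by omega⟩) (cs w) = cs (ini S k w.length) := by
  induction w generalizing k with
  | nil => exact ⟨rfl, rfl⟩
  | cons c w ih =>
    have e1 : (mealy S).δ (.inr ⟨min k S.E.length, by omega⟩) (cell c) =
        .inr ⟨min (k + 1) S.E.length, by omega⟩ := by
      simp only [mealy, trWr]
      congr 2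
      omega
    have e2 : (mealy S).out (.inr ⟨min k S.E.length, by omega⟩) (cell c) =
        cell (S.E.getD k S.bl) := by
      simp only [mealy, trWr]
      congr 1
      by_cases hk : k < S.E.length
      · rw [Nat.min_eq_left hk.le]
      · rw [Nat.min_eq_right (by omega)]
        simp [List.getD, List.getElem?_eq_none (show S.E.length ≤ k by omega)]
    obtain ⟨h1, h2⟩ := ih (k + 1)
    constructor
    · show (mealy S).next ((mealy S).δ _ (cell c)) (cs w) = _
      rw [e1, h1]
      congr 2
      simp only [List.length_cons]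
      omega
    · show (mealy S).out _ (cell c) :: (mealy S).act ((mealy S).δ _ (cell c)) (cs w) = _
      rw [e1, e2, h2]
      rfl

end Pool.Agent.Lib.MP_5b5905_lc
end

section

section

namespace Pool.Agent.Lib.MP_5b5905_lc

open Lt Fx

/-- The marks drift to the right: the initial content starts with the only marked cell. -/
structure Sys.Good (S : Sys) : Prop where
  /-- blank cells are not marked -/
  mbl : S.mrk S.bl = false
  /-- the mark of the new cell is the mark of the middle cell -/
  mF : ∀ a b c, S.mrk (S.F a b c) = S.mrk b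
  /-- the initial content is not empty -/
  ne : S.E ≠ []
  /-- exactly the first cell of the initial content is marked -/
  mE : ∀ i (h : i < S.E.length), S.mrk S.E[i] = true ↔ i = 0

/-- A halted cell appears. -/
def Sys.Halts (S : Sys) : Prop := ∃ m t, ∃ c ∈ W S m t, S.hlt c = true

variable {S : Sys}

theorem pass_mark (hG : S.Good) (a b : S.C) (w : List S.C) (i : ℕ) (hi : i < w.length) :
    S.mrk ((pass S a b w)[i]'(by rw [pass_length]; exact hi)) =
      S.mrk ((b :: w)[i]'(by simp; omega)) := by
  induction w generalizing a b i with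
  | nil => simp at hi
  | cons c w ih =>
    cases i with
    | zero => simp [pass, hG.mF]
    | succ i =>
      have := ih b c i (by simpa using hi)
      simpa [pass] using this

theorem ini_getElem (k n i : ℕ) (hi : i < n) :
    (ini S k n)[i]'(by rw [ini_length]; exact hi) = S.E.getD (k + i) S.bl := by
  induction n generalizing k i with
  | zero => omega
  | succ n ih =>
    cases i with
    | zero => simp [ini]
    | succ i =>
      have := ih (k + 1) i (by omega)
      simp only [ini, List.getElem_cons_succ, this]
      congr 1; omega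

theorem W_mark (hG : S.Good) (m t i : ℕ) (hi : i < m) :
    S.mrk ((W S m t)[i]'(by rw [W_length]; exact hi)) = true ↔ i = t := by
  induction t generalizing i with
  | zero =>
    have : (W S m 0)[i]'(by rw [W_length]; exact hi) = S.E.getD i S.bl := by
      have := ini_getElem (S := S) 0 m i hi
      rw [Nat.zero_add] at this
      exact this
    rw [this]
    by_cases h : i < S.E.length
    · rw [List.getD_eq_getElem _ _ h]
      exact hG.mE i h
    · rw [List.getD_eq_default _ _ (by omega), hG.mbl]
      have := List.length_pos_of_ne_nil hG.ne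
      simp only [Bool.false_eq_true, false_iff]
      omega
  | succ t ih =>
    have h1 : (W S m (t + 1))[i]'(by rw [W_length]; exact hi) =
        (pass S S.bl S.bl (W S m t))[i]'(by rw [pass_length, W_length]; exact hi) := by
      congr 1
      exact W_succ S m t
    rw [h1, pass_mark hG _ _ _ _ (by rw [W_length]; exact hi)]
    cases i with
    | zero => simp [hG.mbl]
    | succ i =>
      have := ih i (by omega)
      simpa using this

/-- Words with a locked guard are reset words. -/
theorem reset_of_lock (x y : List (Lt S.C)) : x ++ lock :: y ∈ (mealy S).Syn := by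
  have h : [lock] ∈ (mealy S).Syn := by
    refine (Mealy.mem_Syn _).mpr ⟨.inl n0, fun q => ?_⟩
    rcases q with q | q
    · cases q <;> rfl
    · rfl
  have := (mealy S).Syn_ideal h x y
  simpa using this

/-- Words without a locked guard are not reset words. -/
theorem not_reset_of_no_lock {u : List (Lt S.C)} (hu : lock ∉ u) : u ∉ (mealy S).Syn := by
  intro h
  obtain ⟨p, hp⟩ := (Mealy.mem_Syn _).mp h
  have h0 := hp (.inl n0)
  have h1 := hp (.inl n1)
  rw [next_n0] at h0
  have : (mealy S).next (.inl n1) u = .inl n1 := by
    clear h hp h0 h1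
    induction u with
    | nil => rfl
    | cons a u ih =>
      have h2 : lock ∉ u := fun h => hu (by simp [h])
      cases a with
      | lb => exact ih h2
      | lock => exact absurd (by simp) hu
      | z => exact ih h2
      | cell c => exact ih h2
  rw [this, ← h0] at h1
  simp at h1

/-! ### The halting case -/

theorem pass_prefix (a b : S.C) (w w' : List S.C) :
    pass S a b (w ++ w') = pass S a b w ++ (pass S a b (w ++ w')).drop w.length := by
  induction w generalizing a b with
  | nil => simp [pass]
  | cons c w ih => simp only [List.cons_append, pass, List.length_cons, List.drop_succ_cons]; rw [← ih]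

theorem ini_prefix (k n n' : ℕ) : ini S k (n + n') = ini S k n ++ ini S (k + n) n' := by
  induction n generalizing k with
  | zero => simp [ini]
  | succ n ih =>
    rw [show n + 1 + n' = (n + n') + 1 by ring]
    simp only [ini, List.cons_append, ih]
    congr 3; ring

theorem W_prefix (m m' t : ℕ) : ∃ w', W S (m + m') t = W S m t ++ w' := by
  induction t with
  | zero => exact ⟨_, ini_prefix 0 m m'⟩
  | succ t ih =>
    obtain ⟨w', h⟩ := ih
    rw [W_succ, W_succ, h]
    exact ⟨_, pass_prefix _ _ _ _⟩

theorem weaklyReset_of_halts (hG : S.Good) (h : S.Halts) : (mealy S).WeaklyReset := by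
  classical
  rw [Mealy.weaklyReset_iff]
  -- first halting time
  have hex : ∃ t, ∃ m, ∃ c ∈ W S m t, S.hlt c = true := by
    obtain ⟨m, t, h⟩ := h
    exact ⟨t, m, h⟩
  obtain ⟨m0, c0, hc0, hc1⟩ := Nat.find_spec hex
  have hmin := fun t (ht : t < Nat.find hex) => Nat.find_min hex ht
  obtain ⟨th, hth⟩ : ∃ th, th = Nat.find hex := ⟨_, rfl⟩
  rw [← hth] at hc0 hmin
  -- the length
  obtain ⟨m, hm⟩ : ∃ m, m = m0 + (th + 1 + S.E.length) := ⟨_, rfl⟩
  have hhalt : ∃ c ∈ W S m th, S.hlt c = true := by
    obtain ⟨w', hw'⟩ := W_prefix (S := S) m0 (th + 1 + S.E.length) th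
    rw [hm, hw']
    exact ⟨c0, by simp [hc0], hc1⟩
  have hnohalt : ∀ t < th, ∀ c ∈ W S m t, S.hlt c = false := by
    intro t ht c hc
    by_contra hcon
    exact hmin t ht ⟨m, c, hc, by simpa using hcon⟩
  -- the invariant
  let Inv : List (Lt S.C) → Prop := fun u => ∃ w : List S.C, u = lb :: cs w ++ [lock] ∧
    w.length = m ∧ ((∃ t < th, w = W S m t) ∨ (∃ c ∈ w, S.hlt c = true))
  have hInv0 : Inv (lb :: cs (W S m 0) ++ [lock]) := by
    refine ⟨_, rfl, W_length _ _ _, ?_⟩
    rcases Nat.eq_zero_or_pos th with h0 | h0
    · right; rw [h0] at hhalt; exact hhalt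
    · left; exact ⟨0, h0, rfl⟩
  have hstep : ∀ u, Inv u → ∀ q, Inv ((mealy S).act q u) := by
    rintro u ⟨w, rfl, hlen, hw⟩ q
    -- the four kinds of states after the first letter
    have hkind : (mealy S).act q (lb :: cs w ++ [lock]) =
        lb :: ((mealy S).act ((mealy S).δ q lb) (cs w) ++
          (mealy S).act ((mealy S).next ((mealy S).δ q lb) (cs w)) [lock]) := by
      have : (mealy S).out q lb = lb := by
        rcases q with q | q
        · cases q <;> rfl
        · rfl
      rw [List.cons_append, Mealy.act, this, Mealy.act_append]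
    have hst : (mealy S).δ q lb = .inl n0 ∨ (mealy S).δ q lb = .inl n1 ∨
        (mealy S).δ q lb = .inr 0 ∨ (mealy S).δ q lb = .inl (arm S.bl S.bl) := by
      rcases q with q | q
      · cases q <;> simp [mealy, trFx]
      · simp [mealy, trWr]
    rw [hkind]
    rcases hst with h | h | h | h
    · rw [h, act_n0, next_n0, act_n0]
      exact ⟨w, rfl, hlen, hw⟩
    · rw [h, (next_cells S n1 (by simp) w).1, (next_cells S n1 (by simp) w).2]
      exact ⟨w, rfl, hlen, hw⟩
    · obtain ⟨h1, h2⟩ := run_wr S w 0
      have e0 : (.inr ⟨min 0 S.E.length, by omega⟩ : St S) = .inr 0 :=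
        congrArg Sum.inr (Fin.ext (by simp))
      rw [e0] at h1 h2
      rw [h, h1, h2]
      have : (mealy S).act (.inr ⟨min (0 + w.length) S.E.length, by omega⟩) [lock] = [lock] := by
        simp only [Mealy.act, mealy, trWr]
        rw [if_neg (by omega)]
      rw [this, hlen]
      refine ⟨W S m 0, rfl, W_length _ _ _, ?_⟩
      rcases Nat.eq_zero_or_pos th with h0 | h0
      · right; rw [h0] at hhalt; exact hhalt
      · left; exact ⟨0, h0, rfl⟩
    · rw [h]
      by_cases hh : ∃ c ∈ w, S.hlt c = true
      · obtain ⟨h1, w', h2, h3, h4⟩ := run_arm_halt S w hh S.bl S.bl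
        rw [h1, h2]
        exact ⟨w', rfl, by rw [h3, hlen], Or.inr h4⟩
      · rcases hw with ⟨t, ht, rfl⟩ | hw
        · obtain ⟨⟨a', h1⟩, h2⟩ := run_arm S (W S m t) (hnohalt t ht) S.bl S.bl
          rw [h1, h2]
          have hlast : S.mrk ((W S m t).getLastD S.bl) = false := by
            by_contra hcon
            have hcon' : S.mrk ((W S m t).getLastD S.bl) = true := by simpa using hcon
            have hne : W S m t ≠ [] := by
              intro h0
              have := congrArg List.length h0
              rw [W_length] at this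
              simp at this
              omega
            rw [List.getLastD_eq_getLast?, List.getLast?_eq_getLast_of_ne_nil hne,
              Option.getD_some, List.getLast_eq_getElem] at hcon'
            have := (W_mark hG m t ((W S m t).length - 1) (by rw [W_length]; omega)).mp hcon'
            rw [W_length] at this
            omega
          have : (mealy S).act (.inl (arm a' ((W S m t).getLastD S.bl))) [lock] = [lock] := by
            simp only [Mealy.act, mealy, trFx, hlast]
            rfl
          rw [this, ← W_succ]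
          refine ⟨W S m (t + 1), rfl, W_length _ _ _, ?_⟩
          rcases Nat.lt_or_ge (t + 1) th with h3 | h3
          · left; exact ⟨t + 1, h3, rfl⟩
          · right
            have : t + 1 = th := by omega
            rw [this]; exact hhalt
        · exact absurd hw hh
  refine ⟨lb :: cs (W S m 0) ++ [lock], fun qs => ?_⟩
  have : ∀ qs u, Inv u → Inv ((mealy S).acts qs u) := by
    intro qs
    induction qs with
    | nil => intro u hu; exact hu
    | cons q qs ih => intro u hu; exact ih _ (hstep u hu q)
  obtain ⟨w, hw, -⟩ := this qs _ hInv0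
  rw [hw]
  exact reset_of_lock _ []

/-! ### The case without halting -/

/-- states of the stepping family -/
def TF : St S → Prop := fun q => q = .inl T ∨ q = .inl D ∨ ∃ a b, q = .inl (arm a b)

/-- states of the writing family -/
def IF : St S → Prop := fun q => q = .inl Iun ∨ ∃ k, q = .inr k

theorem TF_next {q : St S} (hq : TF q) {u : List (Lt S.C)} (hu : lock ∉ u) :
    TF ((mealy S).next q u) ∧ lock ∉ (mealy S).act q u := by
  induction u generalizing q with
  | nil => exact ⟨hq, by simp [Mealy.act]⟩
  | cons a u ih =>
    have h2 : lock ∉ u := fun h => hu (by simp [h])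
    have h3 : TF ((mealy S).δ q a) ∧ (mealy S).out q a ≠ lock := by
      cases a with
      | lock => exact absurd (by simp) hu
      | lb =>
        rcases hq with rfl | rfl | ⟨a, b, rfl⟩ <;>
          exact ⟨Or.inr (Or.inr ⟨_, _, rfl⟩), by simp [mealy, trFx]⟩
      | z =>
        rcases hq with rfl | rfl | ⟨a, b, rfl⟩ <;>
          exact ⟨Or.inl rfl, by simp [mealy, trFx]⟩
      | cell c =>
        rcases hq with rfl | rfl | ⟨a, b, rfl⟩
        · exact ⟨Or.inl rfl, by simp [mealy, trFx]⟩
        · exact ⟨Or.inr (Or.inl rfl), by simp [mealy, trFx]⟩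
        · cases hc : S.hlt c with
          | true => exact ⟨by simp [mealy, trFx, hc, TF], by simp [mealy, trFx, hc]⟩
          | false => exact ⟨by simp [mealy, trFx, hc, TF], by simp [mealy, trFx, hc]⟩
    obtain ⟨h4, h5⟩ := ih h3.1 h2
    refine ⟨h4, ?_⟩
    simp only [Mealy.act, List.mem_cons, not_or]
    exact ⟨Ne.symm h3.2, h5⟩

theorem IF_next {q : St S} (hq : IF q) {u : List (Lt S.C)} (hu : lock ∉ u) :
    IF ((mealy S).next q u) ∧ lock ∉ (mealy S).act q u := by
  induction u generalizing q with
  | nil => exact ⟨hq, by simp [Mealy.act]⟩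
  | cons a u ih =>
    have h2 : lock ∉ u := fun h => hu (by simp [h])
    have h3 : IF ((mealy S).δ q a) ∧ (mealy S).out q a ≠ lock := by
      cases a with
      | lock => exact absurd (by simp) hu
      | lb =>
        rcases hq with rfl | ⟨k, rfl⟩ <;>
          exact ⟨Or.inr ⟨_, rfl⟩, by simp [mealy, trFx, trWr]⟩
      | z =>
        rcases hq with rfl | ⟨k, rfl⟩ <;>
          exact ⟨Or.inl rfl, by simp [mealy, trFx, trWr]⟩
      | cell c =>
        rcases hq with rfl | ⟨k, rfl⟩
        · exact ⟨Or.inl rfl, by simp [mealy, trFx]⟩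
        · exact ⟨Or.inr ⟨_, rfl⟩, by simp [mealy, trWr]⟩
    obtain ⟨h4, h5⟩ := ih h3.1 h2
    refine ⟨h4, ?_⟩
    simp only [Mealy.act, List.mem_cons, not_or]
    exact ⟨Ne.symm h3.2, h5⟩

/-- Splitting a list of letters at its last letter that is not a cell. -/
theorem split_last (p : List (Lt S.C)) : (∃ w : List S.C, p = cs w) ∨
    ∃ (p' : List (Lt S.C)) (x : Lt S.C) (w : List S.C), p = p' ++ x :: cs w ∧
      ∀ c, x ≠ cell c := by
  induction p with
  | nil => left; exact ⟨[], rfl⟩
  | cons a p ih =>
    rcases ih with ⟨w, rfl⟩ | ⟨p', x, w, rfl, hx⟩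
    · cases a with
      | cell c => left; exact ⟨c :: w, rfl⟩
      | lb => right; exact ⟨[], lb, w, rfl, by simp⟩
      | lock => right; exact ⟨[], lock, w, rfl, by simp⟩
      | z => right; exact ⟨[], z, w, rfl, by simp⟩
    · right; exact ⟨a :: p', x, w, rfl, hx⟩

theorem lock_notMem_cs (w : List S.C) : (lock : Lt S.C) ∉ cs w := by
  simp [cs]

/-- If a pass arrives at the first locked guard in the state `T`, the guard is unlocked. -/
theorem unlock_T {p r : List (Lt S.C)} (hp : lock ∉ p) {q : St S} (hq : TF q)
    (hn : (mealy S).next q p = .inl T) :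
    ∃ p', lock ∉ p' ∧ (mealy S).act q (p ++ lock :: r) = p' ++ z :: r := by
  refine ⟨(mealy S).act q p, (TF_next hq hp).2, ?_⟩
  rw [Mealy.act_append, hn]
  congr 1
  show z :: (mealy S).act (.inl n0) r = _
  rw [act_n0]

/-- A block with the content of time `t`. -/
theorem unlock_block (hG : S.Good) (hno : ¬ S.Halts) {p r : List (Lt S.C)} (hp : lock ∉ p)
    (m : ℕ) (hm : 0 < m) : ∀ t < m, ∃ qs p', lock ∉ p' ∧
      (mealy S).acts qs (p ++ lb :: (cs (W S m 0) ++ lock :: r)) =
        p' ++ lb :: (cs (W S m t) ++ lock :: r) := by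
  have hnh : ∀ t, ∀ c ∈ W S m t, S.hlt c = false := by
    intro t c hc
    by_contra hcon
    exact hno ⟨m, t, c, hc, by simpa using hcon⟩
  intro t
  induction t with
  | zero => intro _; exact ⟨[], p, hp, rfl⟩
  | succ t ih =>
    intro ht
    obtain ⟨qs, p', hp', h⟩ := ih (by omega)
    obtain ⟨h1, h2⟩ := TF_next (q := (.inl T : St S)) (Or.inl rfl) hp'
    refine ⟨qs ++ [.inl T], (mealy S).act (.inl T) p', h2, ?_⟩
    rw [Mealy.acts_append, h]
    show (mealy S).act (.inl T) _ = _
    rw [Mealy.act_append]
    congr 1
    have e1 : (mealy S).δ ((mealy S).next (.inl T) p') lb = .inl (arm S.bl S.bl) := by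
      rcases h1 with h1 | h1 | ⟨a, b, h1⟩ <;> rw [h1] <;> rfl
    have e2 : (mealy S).out ((mealy S).next (.inl T) p') lb = lb := by
      rcases h1 with h1 | h1 | ⟨a, b, h1⟩ <;> rw [h1] <;> rfl
    show (mealy S).out ((mealy S).next (.inl T) p') lb ::
      (mealy S).act ((mealy S).δ ((mealy S).next (.inl T) p') lb) (cs (W S m t) ++ lock :: r) = _
    rw [e1, e2, Mealy.act_append]
    obtain ⟨⟨a', h3⟩, h4⟩ := run_arm S (W S m t) (hnh t) S.bl S.bl
    rw [h3, h4, ← W_succ]
    have hlast : S.mrk ((W S m t).getLastD S.bl) = false := by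
      by_contra hcon
      have hcon' : S.mrk ((W S m t).getLastD S.bl) = true := by simpa using hcon
      have hne : W S m t ≠ [] := by
        intro h0
        have := congrArg List.length h0
        rw [W_length] at this
        simp at this
        omega
      rw [List.getLastD_eq_getLast?, List.getLast?_eq_getLast_of_ne_nil hne,
        Option.getD_some, List.getLast_eq_getElem] at hcon'
      have := (W_mark hG m t ((W S m t).length - 1) (by rw [W_length]; omega)).mp hcon'
      rw [W_length] at this
      omega
    have e3 : (mealy S).act (.inl (arm a' ((W S m t).getLastD S.bl))) (lock :: r) = lock :: r := by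
      show (if S.mrk ((W S m t).getLastD S.bl) then z else lock) ::
        (mealy S).act (.inl n0) r = _
      rw [hlast, act_n0]
      rfl
    rw [e3]

/-- The first locked guard can be unlocked. -/
theorem unlock (hG : S.Good) (hno : ¬ S.Halts) {p : List (Lt S.C)} (r : List (Lt S.C))
    (hp : lock ∉ p) : ∃ qs p', lock ∉ p' ∧
      (mealy S).acts qs (p ++ lock :: r) = p' ++ z :: r := by
  rcases split_last p with ⟨w, rfl⟩ | ⟨p1, x, w, rfl, hx⟩
  · obtain ⟨p', h1, h2⟩ := unlock_T (q := (.inl T : St S)) (r := r) hp (Or.inl rfl)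
      (next_cells S T (by simp) w).1
    exact ⟨[.inl T], p', h1, h2⟩
  · have hp1 : lock ∉ p1 := fun h => hp (by simp [h])
    obtain ⟨h1, h2⟩ := TF_next (q := (.inl T : St S)) (Or.inl rfl) hp1
    cases x with
    | lock => exact absurd (by simp) hp
    | cell c => exact absurd rfl (hx c)
    | z =>
      obtain ⟨p', h3, h4⟩ := unlock_T (q := (.inl T : St S)) (r := r) hp (Or.inl rfl) (by
        rw [Mealy.next_append]
        have : (mealy S).δ ((mealy S).next (.inl T) p1) z = .inl T := by
          rcases h1 with h1 | h1 | ⟨a, b, h1⟩ <;> rw [h1] <;> rfl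
        show (mealy S).next ((mealy S).δ ((mealy S).next (.inl T) p1) z) (cs w) = _
        rw [this]
        exact (next_cells S T (by simp) w).1)
      exact ⟨[.inl T], p', h3, h4⟩
    | lb =>
      -- write the initial content
      obtain ⟨h3, h4⟩ := IF_next (q := (.inl Iun : St S)) (Or.inl rfl) hp1
      have e1 : (mealy S).δ ((mealy S).next (.inl Iun) p1) lb = .inr 0 := by
        rcases h3 with h3 | ⟨k, h3⟩ <;> rw [h3] <;> rfl
      have e2 : (mealy S).out ((mealy S).next (.inl Iun) p1) lb = lb := by
        rcases h3 with h3 | ⟨k, h3⟩ <;> rw [h3] <;> rfl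
      obtain ⟨h5, h6⟩ := run_wr S w 0
      have e0 : (.inr ⟨min 0 S.E.length, by omega⟩ : St S) = .inr 0 :=
        congrArg Sum.inr (Fin.ext (by simp))
      rw [e0] at h5 h6
      have hact : (mealy S).act (.inl Iun) (p1 ++ lb :: cs w ++ lock :: r) =
          (mealy S).act (.inl Iun) p1 ++ lb :: (cs (ini S 0 w.length) ++
            (if w.length < S.E.length then z else lock) :: r) := by
        rw [List.append_assoc, Mealy.act_append]
        congr 1
        show (mealy S).out ((mealy S).next (.inl Iun) p1) lb ::
          (mealy S).act ((mealy S).δ ((mealy S).next (.inl Iun) p1) lb) (cs w ++ lock :: r) = _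
        rw [e1, e2, Mealy.act_append, h5, h6]
        congr 2
        show (if min (0 + w.length) S.E.length < S.E.length then z else lock) ::
          (mealy S).act (.inl n0) r = _
        rw [act_n0]
        congr 1
        by_cases hlt : w.length < S.E.length
        · rw [if_pos hlt, if_pos (by omega)]
        · rw [if_neg hlt, if_neg (by omega)]
      by_cases hlt : w.length < S.E.length
      · rw [if_pos hlt] at hact
        refine ⟨[.inl Iun], (mealy S).act (.inl Iun) p1 ++ lb :: cs (ini S 0 w.length), ?_, ?_⟩
        · intro h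
          rcases List.mem_append.mp h with h | h
          · exact h4 h
          · rcases List.mem_cons.mp h with h | h
            · simp at h
            · exact lock_notMem_cs _ h
        · show (mealy S).act (.inl Iun) _ = _
          rw [hact]
          simp
      · rw [if_neg hlt] at hact
        have hE := List.length_pos_of_ne_nil hG.ne
        obtain ⟨qs, p2, h7, h8⟩ := unlock_block hG hno (r := r) h4 w.length (by omega)
          (w.length - 1) (by omega)
        -- the last pass
        obtain ⟨h9, h10⟩ := TF_next (q := (.inl T : St S)) (Or.inl rfl) h7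
        have f1 : (mealy S).δ ((mealy S).next (.inl T) p2) lb = .inl (arm S.bl S.bl) := by
          rcases h9 with h9 | h9 | ⟨a, b, h9⟩ <;> rw [h9] <;> rfl
        have f2 : (mealy S).out ((mealy S).next (.inl T) p2) lb = lb := by
          rcases h9 with h9 | h9 | ⟨a, b, h9⟩ <;> rw [h9] <;> rfl
        have hnh : ∀ c ∈ W S w.length (w.length - 1), S.hlt c = false := by
          intro c hc
          by_contra hcon
          exact hno ⟨_, _, c, hc, by simpa using hcon⟩
        obtain ⟨⟨a', h11⟩, h12⟩ := run_arm S (W S w.length (w.length - 1)) hnh S.bl S.bl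
        have hlast : S.mrk ((W S w.length (w.length - 1)).getLastD S.bl) = true := by
          have hne : W S w.length (w.length - 1) ≠ [] := by
            intro h0
            have := congrArg List.length h0
            rw [W_length, List.length_nil] at this
            omega
          rw [List.getLastD_eq_getLast?, List.getLast?_eq_getLast_of_ne_nil hne,
            Option.getD_some, List.getLast_eq_getElem]
          have := (W_mark hG w.length (w.length - 1)
            ((W S w.length (w.length - 1)).length - 1) (by rw [W_length]; omega)).mpr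
              (by rw [W_length])
          exact this
        refine ⟨.inl Iun :: (qs ++ [.inl T]), (mealy S).act (.inl T) p2 ++ lb ::
          cs (pass S S.bl S.bl (W S w.length (w.length - 1))), ?_, ?_⟩
        · intro h
          rcases List.mem_append.mp h with h | h
          · exact h10 h
          · rcases List.mem_cons.mp h with h | h
            · simp at h
            · exact lock_notMem_cs _ h
        · show (mealy S).acts (qs ++ [.inl T]) ((mealy S).act (.inl Iun) _) = _
          rw [hact, Mealy.acts_append]
          have h8' : (mealy S).acts qs ((mealy S).act (.inl Iun) p1 ++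
              lb :: (cs (ini S 0 w.length) ++ lock :: r)) =
              p2 ++ lb :: (cs (W S w.length (w.length - 1)) ++ lock :: r) := h8
          rw [h8']
          show (mealy S).act (.inl T) _ = _
          rw [Mealy.act_append, List.append_assoc]
          congr 1
          show (mealy S).out ((mealy S).next (.inl T) p2) lb ::
            (mealy S).act ((mealy S).δ ((mealy S).next (.inl T) p2) lb)
              (cs (W S w.length (w.length - 1)) ++ lock :: r) = _
          rw [f1, f2, Mealy.act_append, h11, h12, List.cons_append]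
          congr 2
          show (if S.mrk ((W S w.length (w.length - 1)).getLastD S.bl) then z else lock) ::
            (mealy S).act (.inl n0) r = _
          rw [hlast, act_n0]
          rfl

theorem not_weaklyReset_of_not_halts (hG : S.Good) (hno : ¬ S.Halts) :
    ¬ (mealy S).WeaklyReset := by
  rw [Mealy.weaklyReset_iff]
  push Not
  intro u
  suffices h : ∃ qs, lock ∉ (mealy S).acts qs u by
    obtain ⟨qs, h⟩ := h
    exact ⟨qs, not_reset_of_no_lock h⟩
  -- induction on the rest after the first locked guard
  have key : ∀ (n : ℕ) (r p : List (Lt S.C)), r.length = n → lock ∉ p →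
      ∃ qs, lock ∉ (mealy S).acts qs (p ++ r) := by
    intro n
    induction n using Nat.strong_induction_on with
    | _ n ih =>
      intro r p hr hp
      by_cases hlr : lock ∈ r
      · obtain ⟨r1, r2, hr12, hr1⟩ := List.eq_append_cons_of_mem hlr
        obtain ⟨qs, p', h1, h2⟩ := unlock hG hno (p := p ++ r1) r2 (by simp [hp, hr1])
        obtain ⟨qs', h3⟩ := ih r2.length (by rw [← hr, hr12]; simp; omega) r2 (p' ++ [z]) rfl
          (by simp [h1])
        refine ⟨qs ++ qs', ?_⟩
        rw [Mealy.acts_append, hr12, ← List.append_assoc, h2]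
        rw [List.append_assoc] at h3
        exact h3
      · exact ⟨[], by simp [Mealy.acts, hp, hlr]⟩
  obtain ⟨qs, h⟩ := key u.length u [] rfl (by simp)
  exact ⟨qs, h⟩

end Pool.Agent.Lib.MP_5b5905_lc
end

section

namespace Pool.Agent.Lib.MP_5b5905_lc

open Turing

variable {Γ Λ : Type} [Inhabited Γ] [Inhabited Λ]

/-- the action of a cell -/
def cact (M : TM0.Machine Γ Λ) (c : Γ × Option Λ × Bool) : Option (Λ × TM0.Stmt Γ) :=
  c.2.1.bind fun q => M q c.1

/-- the head moves to the right -/
def goR (M : TM0.Machine Γ Λ) (c : Γ × Option Λ × Bool) : Option Λ :=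
  match cact M c with
  | some (q, .move Dir.right) => some q
  | _ => none

/-- the head moves to the left -/
def goL (M : TM0.Machine Γ Λ) (c : Γ × Option Λ × Bool) : Option Λ :=
  match cact M c with
  | some (q, .move Dir.left) => some q
  | _ => none

/-- the head stays -/
def stay (M : TM0.Machine Γ Λ) (c : Γ × Option Λ × Bool) : Option Λ :=
  match cact M c with
  | some (q, .write _) => some q
  | _ => none

/-- the new symbol -/
def sym (M : TM0.Machine Γ Λ) (c : Γ × Option Λ × Bool) : Γ :=
  match cact M c with
  | some (_, .write x) => x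
  | _ => c.1

/-- The system of a Turing machine with an input. -/
def tmSys (M : TM0.Machine Γ Λ) (L : List Γ) : Sys where
  C := Γ × Option Λ × Bool
  bl := (default, none, false)
  F a b c := (sym M b, (stay M b).or ((goR M a).or (goL M c)), b.2.2)
  hlt c := c.2.1.isSome && (cact M c).isNone
  mrk c := c.2.2
  E := (L.headI, some default, true) :: L.tail.map fun a => (a, none, false)

theorem tmSys_good (M : TM0.Machine Γ Λ) (L : List Γ) : (tmSys M L).Good where
  mbl := rfl
  mF _ _ _ := rfl
  ne := by simp [tmSys]
  mE i hi := by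
    cases i with
    | zero => simp [tmSys]
    | succ i => simp [tmSys]

/-- absolute configurations -/
structure ACfg (Γ Λ : Type) where
  /-- state -/
  q : Λ
  /-- head position -/
  h : ℤ
  /-- tape -/
  s : ℤ → Γ

/-- one step -/
def absStep (M : TM0.Machine Γ Λ) (x : ACfg Γ Λ) : Option (ACfg Γ Λ) :=
  match M x.q (x.s x.h) with
  | none => none
  | some (q, .write a) => some ⟨q, x.h, Function.update x.s x.h a⟩
  | some (q, .move Dir.right) => some ⟨q, x.h + 1, x.s⟩
  | some (q, .move Dir.left) => some ⟨q, x.h - 1, x.s⟩

open Classical in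
/-- the cell at physical position `p` at time `t` -/
noncomputable def cellAt (t : ℕ) (x : ACfg Γ Λ) (p : ℤ) : Γ × Option Λ × Bool :=
  (x.s (p - t), if x.h = p - t then some x.q else none, decide (p = t))

omit [Inhabited Γ] in
theorem cact_cellAt (M : TM0.Machine Γ Λ) (t : ℕ) (x : ACfg Γ Λ) (p : ℤ) :
    cact M (cellAt t x p) = if x.h = p - t then M x.q (x.s x.h) else none := by
  unfold cact cellAt
  by_cases h : x.h = p - t
  · simp [h]
  · simp [h]

theorem F_cellAt (M : TM0.Machine Γ Λ) (L : List Γ) (t : ℕ) (x y : ACfg Γ Λ)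
    (hxy : absStep M x = some y) (p : ℤ) :
    (tmSys M L).F (cellAt t x (p - 2)) (cellAt t x (p - 1)) (cellAt t x p) =
      cellAt (t + 1) y p := by
  have ha := cact_cellAt M t x (p - 2)
  have hb := cact_cellAt M t x (p - 1)
  have hc := cact_cellAt M t x p
  simp only [tmSys, sym, stay, goR, goL, ha, hb, hc]
  unfold absStep at hxy
  have e : p - ((t + 1 : ℕ) : ℤ) = p - 1 - t := by push_cast; ring
  have e3 : decide (p - 1 = (t : ℤ)) = decide (p = ((t + 1 : ℕ) : ℤ)) := by
    rw [decide_eq_decide]; push_cast; omega
  unfold cellAt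
  rw [e, ← e3]
  cases hM : M x.q (x.s x.h) with
  | none => rw [hM] at hxy; simp at hxy
  | some qs =>
    obtain ⟨q, st⟩ := qs
    rw [hM] at hxy
    cases st with
    | write a =>
      simp only [Option.some.injEq] at hxy
      subst hxy
      by_cases h2 : x.h = p - 1 - t
      · have h1 : ¬ x.h = p - 2 - t := by omega
        have h3 : ¬ x.h = p - t := by omega
        simp [h2]
      · have e4 : Function.update x.s x.h a (p - 1 - t) = x.s (p - 1 - t) :=
          Function.update_of_ne (Ne.symm h2) _ _
        rw [if_neg h2]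
        simp only [e4, if_neg h2]
        split_ifs <;> rfl
    | move d =>
      cases d with
      | left =>
        simp only [Option.some.injEq] at hxy
        subst hxy
        simp only
        have e5 : (x.h - 1 = p - 1 - t) ↔ x.h = p - t := by omega
        simp only [e5]
        by_cases h2 : x.h = p - 1 - t
        · have h1 : ¬ x.h = p - 2 - t := by omega
          have h3 : ¬ x.h = p - t := by omega
          rw [if_pos h2]
          simp only [if_neg h1, if_neg h3]
          rfl
        · rw [if_neg h2]
          by_cases h3 : x.h = p - t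
          · have h1 : ¬ x.h = p - 2 - t := by omega
            simp only [if_neg h1, if_pos h3]
            rfl
          · simp only [if_neg h3]
            split_ifs <;> rfl
      | right =>
        simp only [Option.some.injEq] at hxy
        subst hxy
        simp only
        have e5 : (x.h + 1 = p - 1 - t) ↔ x.h = p - 2 - t := by omega
        simp only [e5]
        by_cases h2 : x.h = p - 1 - t
        · have h1 : ¬ x.h = p - 2 - t := by omega
          have h3 : ¬ x.h = p - t := by omega
          rw [if_pos h2]
          simp only [if_neg h1, if_neg h3]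
          rfl
        · rw [if_neg h2]
          by_cases h1 : x.h = p - 2 - t
          · simp only [if_pos h1]
            rfl
          · simp only [if_neg h1]
            split_ifs <;> rfl

theorem pass_range (S : Sys) (f : ℤ → S.C) (n : ℕ) : ∀ k : ℤ,
    pass S (f (k - 2)) (f (k - 1)) ((List.range n).map fun i : ℕ => f (k + i)) =
      (List.range n).map fun i : ℕ => S.F (f (k + i - 2)) (f (k + i - 1)) (f (k + i)) := by
  induction n with
  | zero => intro k; rfl
  | succ n ih =>
    intro k
    have h := ih (k + 1)
    rw [List.range_succ_eq_map]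
    simp only [List.map_cons, List.map_map, pass, Nat.cast_zero, add_zero]
    congr 1
    have e1 : k + 1 - 2 = k - 1 := by ring
    have e2 : k + 1 - 1 = k := by ring
    rw [e1, e2] at h
    have e3 : ((fun i : ℕ => f (k + i)) ∘ Nat.succ) = fun i : ℕ => f (k + 1 + i) := by
      funext i
      simp only [Function.comp_apply, Nat.cast_succ]
      congr 1; ring
    rw [e3, h]
    apply List.map_congr_left
    intro i _
    simp only [Function.comp_apply, Nat.cast_succ]
    have e4 : k + 1 + (i : ℤ) = k + ((i : ℤ) + 1) := by ring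
    rw [e4]

/-- the initial absolute configuration -/
def absInit (L : List Γ) : ACfg Γ Λ :=
  ⟨default, 0, fun j => if 0 ≤ j then L.getI j.toNat else default⟩

/-- the sequence of absolute configurations -/
def absSeq (M : TM0.Machine Γ Λ) (L : List Γ) : ℕ → Option (ACfg Γ Λ)
  | 0 => some (absInit L)
  | n + 1 => (absSeq M L n).bind (absStep M)

theorem ini_map (S : Sys) (n : ℕ) : ∀ k, ini S k n =
    (List.range n).map fun i => S.E.getD (k + i) S.bl := by
  induction n with
  | zero => intro k; rfl
  | succ n ih =>
    intro k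
    rw [List.range_succ_eq_map]
    simp only [ini, List.map_cons, List.map_map, ih, add_zero]
    congr 1
    apply List.map_congr_left
    intro i _
    simp only [Function.comp_apply]
    congr 1
    omega

theorem W_zero (M : TM0.Machine Γ Λ) (L : List Γ) (m : ℕ) :
    W (tmSys M L) m 0 = (List.range m).map fun p : ℕ => cellAt 0 (absInit L : ACfg Γ Λ) p := by
  show ini (tmSys M L) 0 m = _
  rw [ini_map]
  apply List.map_congr_left
  intro i _
  rw [zero_add]
  cases i with
  | zero =>
    simp only [tmSys, cellAt, absInit]
    cases L <;> simp [List.getI]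
  | succ i =>
    simp only [tmSys, cellAt, absInit]
    have h1 : ¬ (0 : ℤ) = (i : ℤ) + 1 := by omega
    have h2 : ¬ ((i : ℤ) + 1 = 0) := by omega
    have h3 : (0 : ℤ) ≤ (i : ℤ) + 1 := by omega
    have h4 : ((i : ℤ) + 1).toNat = i + 1 := by omega
    simp only [List.getD_cons_succ, Nat.cast_succ, Nat.cast_zero, sub_zero, h1, h2, h3, h4,
      if_true, if_false, decide_false]
    by_cases hi : i < L.tail.length
    · have hi' : i + 1 < L.length := by rw [List.length_tail] at hi; omega
      rw [List.getD_eq_getElem _ _ (by simpa using hi), List.getI_eq_getElem _ hi']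
      simp
    · have hi' : L.length ≤ i + 1 := by rw [List.length_tail] at hi; omega
      rw [List.getD_eq_default _ _ (by simpa using hi), List.getI_eq_default _ hi']

theorem absSeq_spec (M : TM0.Machine Γ Λ) (L : List Γ) (n : ℕ) : ∀ x : ACfg Γ Λ,
    absSeq M L n = some x → (∀ m, W (tmSys M L) m n = (List.range m).map fun p : ℕ =>
      cellAt n x p) ∧ -(n : ℤ) ≤ x.h ∧ ∀ j : ℤ, j < -(n : ℤ) → x.s j = default := by
  induction n with
  | zero =>
    intro x hx
    simp only [absSeq, Option.some.injEq] at hx
    subst hx
    refine ⟨W_zero M L, by simp [absInit], ?_⟩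
    intro j hj
    simp only [absInit]
    rw [if_neg (by simpa using hj)]
  | succ n ih =>
    intro y hy
    simp only [absSeq] at hy
    obtain ⟨x, hx, hxy⟩ := Option.bind_eq_some_iff.mp hy
    obtain ⟨h1, h2, h3⟩ := ih x hx
    refine ⟨?_, ?_⟩
    · intro m
      rw [W_succ, h1]
      have hm1 : cellAt n x (0 - 1) = (tmSys M L).bl := by
        simp only [cellAt, tmSys]
        have e1 : x.s (0 - 1 - (n : ℤ)) = default := h3 _ (by omega)
        have e2 : ¬ x.h = 0 - 1 - (n : ℤ) := by omega
        have e3 : ¬ (0 - 1 : ℤ) = (n : ℤ) := by omega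
        simp only [e1, e2, e3, if_false, decide_false]
      have hm2 : cellAt n x (0 - 2) = (tmSys M L).bl := by
        simp only [cellAt, tmSys]
        have e1 : x.s (0 - 2 - (n : ℤ)) = default := h3 _ (by omega)
        have e2 : ¬ x.h = 0 - 2 - (n : ℤ) := by omega
        have e3 : ¬ (0 - 2 : ℤ) = (n : ℤ) := by omega
        simp only [e1, e2, e3, if_false, decide_false]
      have := pass_range (tmSys M L) (fun p => cellAt n x p) m 0
      simp only [zero_add] at this
      rw [hm1, hm2] at this
      refine Eq.trans this ?_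
      apply List.map_congr_left
      intro i _
      exact F_cellAt M L n x y hxy i
    · unfold absStep at hxy
      cases hM : M x.q (x.s x.h) with
      | none => rw [hM] at hxy; simp at hxy
      | some qs =>
        obtain ⟨q, st⟩ := qs
        rw [hM] at hxy
        cases st with
        | write a =>
          simp only [Option.some.injEq] at hxy
          subst hxy
          refine ⟨by push_cast; omega, fun j hj => ?_⟩
          simp only
          rw [Function.update_of_ne (by push_cast at hj; omega)]
          exact h3 j (by push_cast at hj; omega)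
        | move d =>
          cases d with
          | left =>
            simp only [Option.some.injEq] at hxy
            subst hxy
            exact ⟨by simp only; push_cast; omega, fun j hj => h3 j (by push_cast at hj; omega)⟩
          | right =>
            simp only [Option.some.injEq] at hxy
            subst hxy
            exact ⟨by simp only; push_cast; omega, fun j hj => h3 j (by push_cast at hj; omega)⟩

theorem halts_iff_abs (M : TM0.Machine Γ Λ) (L : List Γ) :
    (tmSys M L).Halts ↔ ∃ n x, absSeq M L n = some x ∧ absStep M x = none := by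
  constructor
  · intro h
    by_contra hcon
    push Not at hcon
    have hall : ∀ n, ∃ x, absSeq M L n = some x := by
      intro n
      induction n with
      | zero => exact ⟨_, rfl⟩
      | succ n ih =>
        obtain ⟨x, hx⟩ := ih
        obtain ⟨y, hy⟩ := Option.ne_none_iff_exists'.mp (hcon n x hx)
        exact ⟨y, by simp [absSeq, hx, hy]⟩
    obtain ⟨m, t, c, hc, hc2⟩ := h
    obtain ⟨x, hx⟩ := hall t
    rw [(absSeq_spec M L t x hx).1] at hc
    obtain ⟨p, -, rfl⟩ := List.mem_map.mp hc
    have hne := hcon t x hx
    apply hne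
    simp only [tmSys, Bool.and_eq_true] at hc2
    obtain ⟨h1, h2⟩ := hc2
    have h3 : x.h = (p : ℤ) - t := by
      by_contra h3
      simp [cellAt, h3] at h1
    rw [cact_cellAt, if_pos h3, Option.isNone_iff_eq_none] at h2
    unfold absStep
    rw [h2]
  · rintro ⟨n, x, hx, hn⟩
    obtain ⟨h1, h2, -⟩ := absSeq_spec M L n x hx
    have h3 : M x.q (x.s x.h) = none := by
      unfold absStep at hn
      cases hM : M x.q (x.s x.h) with
      | none => rfl
      | some qs =>
        obtain ⟨q, st⟩ := qs
        rw [hM] at hn
        cases st with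
        | write a => simp at hn
        | move d => cases d <;> simp at hn
    refine ⟨(x.h + n).toNat + 1, n, cellAt n x ((x.h + n).toNat : ℤ), ?_, ?_⟩
    · rw [h1]
      exact List.mem_map.mpr ⟨(x.h + n).toNat, by simp, rfl⟩
    · have e : ((x.h + n).toNat : ℤ) = x.h + n := by omega
      have e2 : x.h = x.h + (n : ℤ) - n := by ring
      simp only [tmSys, Bool.and_eq_true]
      rw [cact_cellAt, e]
      constructor
      · simp [cellAt]
      · rw [if_pos e2, h3]; rfl

theorem abs_reaches_iff (M : TM0.Machine Γ Λ) (L : List Γ) (x : ACfg Γ Λ) :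
    StateTransition.Reaches (absStep M) (absInit L) x ↔ ∃ n, absSeq M L n = some x := by
  constructor
  · intro h
    induction h with
    | refl => exact ⟨0, rfl⟩
    | tail _ h ih =>
      obtain ⟨n, hn⟩ := ih
      exact ⟨n + 1, by simp only [absSeq, hn, Option.bind_some]; exact h⟩
  · rintro ⟨n, hn⟩
    induction n generalizing x with
    | zero =>
      simp only [absSeq, Option.some.injEq] at hn
      rw [← hn]
      exact Relation.ReflTransGen.refl
    | succ n ih =>
      simp only [absSeq] at hn
      obtain ⟨y, hy, hyx⟩ := Option.bind_eq_some_iff.mp hn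
      exact (ih y hy).tail hyx

theorem eval_dom_iff (M : TM0.Machine Γ Λ) (L : List Γ) :
    (TM0.eval M L).Dom ↔ (tmSys M L).Halts := by
  rw [halts_iff_abs]
  have hresp : StateTransition.Respects (TM0.step M) (absStep M)
      (fun (a : TM0.Cfg Γ Λ) (b : ACfg Γ Λ) => a.q = b.q ∧ ∀ i : ℤ, a.Tape.nth i = b.s (b.h + i)) := by
    rintro ⟨q, T⟩ ⟨q', h, s⟩ ⟨rfl, hT⟩
    simp only at hT
    have h0 : T.1 = s h := by
      have := hT 0
      rwa [Tape.nth_zero, add_zero] at this
    simp only [TM0.step, absStep, h0]
    cases hM : M q (s h) with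
    | none => simp
    | some qs =>
      obtain ⟨q'', st⟩ := qs
      cases st with
      | write a =>
        refine ⟨⟨q'', h, Function.update s h a⟩, ⟨rfl, ?_⟩, Relation.TransGen.single ?_⟩
        swap
        · show absStep M ⟨q, h, s⟩ = some _
          simp only [absStep, hM]
        intro i
        simp only [Tape.write_nth]
        by_cases hi : i = 0
        · rw [if_pos hi, hi, add_zero, Function.update_self]
        · rw [if_neg hi, hT, Function.update_of_ne (by omega)]
      | move d =>
        cases d with
        | left =>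
          refine ⟨⟨q'', h - 1, s⟩, ⟨rfl, ?_⟩, Relation.TransGen.single ?_⟩
          swap
          · show absStep M ⟨q, h, s⟩ = some _
            simp only [absStep, hM]
          intro i
          simp only [Tape.move_left_nth, hT]
          congr 1; ring
        | right =>
          refine ⟨⟨q'', h + 1, s⟩, ⟨rfl, ?_⟩, Relation.TransGen.single ?_⟩
          swap
          · show absStep M ⟨q, h, s⟩ = some _
            simp only [absStep, hM]
          intro i
          simp only [Tape.move_right_nth, hT]
          congr 1; ring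
  have hinit : (TM0.init L : TM0.Cfg Γ Λ).q = (absInit L : ACfg Γ Λ).q ∧
      ∀ i : ℤ, (TM0.init L : TM0.Cfg Γ Λ).Tape.nth i =
        (absInit L : ACfg Γ Λ).s ((absInit L : ACfg Γ Λ).h + i) := by
    refine ⟨rfl, fun i => ?_⟩
    simp only [TM0.init, absInit, zero_add, Tape.mk₁, Tape.mk₂]
    by_cases hi : 0 ≤ i
    · obtain ⟨n, rfl⟩ := Int.eq_ofNat_of_zero_le hi
      rw [if_pos hi, Tape.mk'_nth_nat, ListBlank.nth_mk]
      rfl
    · rw [if_neg hi]
      obtain ⟨n, rfl⟩ := Int.eq_negSucc_of_lt_zero (not_le.mp hi)
      show (ListBlank.mk []).nth n = default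
      rw [ListBlank.nth_mk]
      simp
  have h := StateTransition.tr_eval_dom hresp hinit
  have h2 : (TM0.eval M L).Dom ↔ (StateTransition.eval (TM0.step M) (TM0.init L)).Dom := Iff.rfl
  rw [h2, ← h, Part.dom_iff_mem]
  constructor
  · rintro ⟨x, hx⟩
    rw [StateTransition.mem_eval] at hx
    obtain ⟨n, hn⟩ := (abs_reaches_iff M L x).mp hx.1
    exact ⟨n, x, hn, hx.2⟩
  · rintro ⟨n, x, h1, h2⟩
    exact ⟨x, StateTransition.mem_eval.mpr ⟨(abs_reaches_iff M L x).mpr ⟨n, h1⟩, h2⟩⟩

/-- The reduction: the Mealy automaton is weakly reset iff the Turing machine halts. -/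
theorem weaklyReset_iff_halts (M : TM0.Machine Γ Λ) (L : List Γ) :
    (mealy (tmSys M L)).WeaklyReset ↔ (TM0.eval M L).Dom := by
  rw [eval_dom_iff]
  constructor
  · intro h
    by_contra hcon
    exact not_weaklyReset_of_not_halts (tmSys_good M L) hcon h
  · exact weaklyReset_of_halts (tmSys_good M L)

end Pool.Agent.Lib.MP_5b5905_lc
end

section

namespace Pool.Agent.Lib.MP_5b5905_lc

open Lt Fx

/-- The converse of `Mealy.weaklyReset_iso`. -/
theorem Mealy.weaklyReset_iso_symm {Q A Q' A' : Type} [Nonempty Q] [Nonempty Q'] {M : Mealy Q A}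
    {M' : Mealy Q' A'} (e : Q ≃ Q') (f : A ≃ A') (h1 : ∀ q a, M'.δ (e q) (f a) = e (M.δ q a))
    (h2 : ∀ q a, M'.out (e q) (f a) = f (M.out q a)) : M'.WeaklyReset → M.WeaklyReset := by
  refine Mealy.weaklyReset_iso e.symm f.symm ?_ ?_
  · intro q a
    obtain ⟨q, rfl⟩ := e.surjective q
    obtain ⟨a, rfl⟩ := f.surjective a
    rw [h1]
    simp only [Equiv.symm_apply_apply]
  · intro q a
    obtain ⟨q, rfl⟩ := e.surjective q
    obtain ⟨a, rfl⟩ := f.surjective a
    rw [h2]
    simp only [Equiv.symm_apply_apply]

section
variable {C : Type} (bl : C) (F : C → C → C → C) (hlt mrk : C → Bool)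

/-- the system with initial content `E` -/
def sysE (E : List C) : Sys := ⟨C, bl, F, hlt, mrk, E⟩

variable {B m : ℕ} (eF : Fx C ≃ Fin B) (eL : Lt C ≃ Fin m)

/-- encoding of the target of a transition from a fixed state -/
def encT {W : Type} : Fx C ⊕ W → ℕ
  | .inl x => eF x
  | .inr _ => B

/-- entries of the fixed rows -/
def f0 (i : Fin B) (j : Fin m) : ℕ × ℕ :=
  (encT eF (trFx (sysE bl F hlt mrk []) () (eF.symm i) (eL.symm j)).1,
    (eL (trFx (sysE bl F hlt mrk []) () (eF.symm i) (eL.symm j)).2 : ℕ))

/-- entries of the writing rows -/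
def f1 (E : List C) (k : ℕ) : Lt C → ℕ × ℕ
  | lb => (B, (eL lb : ℕ))
  | lock => ((eF n0 : ℕ), if k < E.length then (eL z : ℕ) else (eL lock : ℕ))
  | z => ((eF Iun : ℕ), (eL z : ℕ))
  | cell _ => (B + min (k + 1) E.length, (eL (cell (E.getD k bl)) : ℕ))

/-- the table -/
def table (E : List C) : List (List (ℕ × ℕ)) :=
  (List.ofFn fun i : Fin B => List.ofFn fun j : Fin m => f0 bl F hlt mrk eF eL i j) ++
    (List.range (E.length + 1)).map fun k => List.ofFn fun j : Fin m =>
      f1 bl eF eL E k (eL.symm j)

/-- numbering of the states -/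
def eSt (E : List C) : St (sysE bl F hlt mrk E) ≃ Fin (B + (E.length + 1)) :=
  (Equiv.sumCongr eF (Equiv.refl _)).trans finSumFinEquiv

theorem eSt_inl (E : List C) (x : Fx C) :
    ((eSt bl F hlt mrk eF E (.inl x) : Fin _) : ℕ) = eF x := rfl

theorem eSt_inr (E : List C) (k : Fin (E.length + 1)) :
    ((eSt bl F hlt mrk eF E (.inr k) : Fin _) : ℕ) = B + k := rfl

theorem trFx_inl_lt {E : List C} (x : Fx C) (a : Lt C) :
    encT eF (trFx (sysE bl F hlt mrk []) () x a).1 =
      (eSt bl F hlt mrk eF E ((mealy (sysE bl F hlt mrk E)).δ (.inl x) a) : ℕ) ∧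
    (trFx (sysE bl F hlt mrk []) () x a).2 = (mealy (sysE bl F hlt mrk E)).out (.inl x) a := by
  have key : ∀ (y : Fx C ⊕ Fin (E.length + 1)) (y' : Fx C ⊕ Unit),
      (∃ x', y = .inl x' ∧ y' = .inl x') ∨ (y = .inr 0 ∧ y' = .inr ()) →
      encT eF y' = (eSt bl F hlt mrk eF E y : ℕ) := by
    rintro y y' (⟨x', rfl, rfl⟩ | ⟨rfl, rfl⟩)
    · rfl
    · show B = B + ((0 : Fin (E.length + 1)) : ℕ)
      simp
  constructor
  · apply key
    cases x with
    | n0 => left; exact ⟨n0, rfl, rfl⟩
    | n1 => left; cases a <;> exact ⟨_, rfl, rfl⟩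
    | Iun =>
      cases a with
      | lb => right; exact ⟨rfl, rfl⟩
      | lock => left; exact ⟨_, rfl, rfl⟩
      | z => left; exact ⟨_, rfl, rfl⟩
      | cell c => left; exact ⟨_, rfl, rfl⟩
    | T => left; cases a <;> exact ⟨_, rfl, rfl⟩
    | D => left; cases a <;> exact ⟨_, rfl, rfl⟩
    | arm a' b' =>
      left
      cases a with
      | lb => exact ⟨_, rfl, rfl⟩
      | lock => exact ⟨_, rfl, rfl⟩
      | z => exact ⟨_, rfl, rfl⟩
      | cell c =>
        cases hc : hlt c with
        | true => exact ⟨D, by simp [mealy, trFx, sysE, hc], by simp [trFx, sysE, hc]⟩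
        | false => exact ⟨arm b' c, by simp [mealy, trFx, sysE, hc], by simp [trFx, sysE, hc]⟩
  · cases x with
    | n0 => rfl
    | n1 => cases a <;> rfl
    | Iun => cases a <;> rfl
    | T => cases a <;> rfl
    | D => cases a <;> rfl
    | arm a' b' =>
      cases a with
      | lb => rfl
      | lock => rfl
      | z => rfl
      | cell c =>
        cases hc : hlt c with
        | true => simp [mealy, trFx, sysE, hc]
        | false => simp [mealy, trFx, sysE, hc]

theorem f1_eq (E : List C) (k : Fin (E.length + 1)) (a : Lt C) :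
    f1 bl eF eL E k a =
      ((eSt bl F hlt mrk eF E ((mealy (sysE bl F hlt mrk E)).δ (.inr k) a) : ℕ),
        (eL ((mealy (sysE bl F hlt mrk E)).out (.inr k) a) : ℕ)) := by
  cases a with
  | lb => rfl
  | lock =>
    simp only [f1, mealy, trWr]
    by_cases hk : (k : ℕ) < E.length
    · rw [if_pos hk]
      show _ = ((eF n0 : ℕ), (eL (if (k : ℕ) < E.length then z else lock) : ℕ))
      rw [if_pos hk]
    · rw [if_neg hk]
      show _ = ((eF n0 : ℕ), (eL (if (k : ℕ) < E.length then z else lock) : ℕ))
      rw [if_neg hk]
  | z => rfl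
  | cell c => rfl

theorem entry_table (E : List C) (q : St (sysE bl F hlt mrk E)) (a : Lt C) :
    entry (table bl F hlt mrk eF eL E) (eSt bl F hlt mrk eF E q) (eL a) =
      ((eSt bl F hlt mrk eF E ((mealy (sysE bl F hlt mrk E)).δ q a) : ℕ),
        (eL ((mealy (sysE bl F hlt mrk E)).out q a) : ℕ)) := by
  unfold entry table
  rcases q with x | k
  · rw [eSt_inl]
    rw [List.getD_append _ _ _ _ (by simp)]
    have h1 : ((List.ofFn fun i : Fin B => List.ofFn fun j : Fin m =>
        f0 bl F hlt mrk eF eL i j).getD (eF x) []) =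
        List.ofFn fun j : Fin m => f0 bl F hlt mrk eF eL (eF x) j := by
      rw [List.getD_eq_getElem _ _ (by simp)]
      simp
    have h2 : ((List.ofFn fun j : Fin m => f0 bl F hlt mrk eF eL (eF x) j).getD (eL a) (0, 0)) =
        f0 bl F hlt mrk eF eL (eF x) (eL a) := by
      rw [List.getD_eq_getElem _ _ (by simp)]
      simp
    rw [h1, h2]
    unfold f0
    rw [eF.symm_apply_apply, eL.symm_apply_apply]
    obtain ⟨h3, h4⟩ := trFx_inl_lt bl F hlt mrk eF (E := E) x a
    rw [h3, h4]
  · rw [eSt_inr]
    rw [List.getD_append_right _ _ _ _ (by simp)]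
    have e : B + (k : ℕ) - (List.ofFn fun i : Fin B => List.ofFn fun j : Fin m =>
        f0 bl F hlt mrk eF eL i j).length = k := by simp
    rw [e]
    have h1 : (((List.range (E.length + 1)).map fun k => List.ofFn fun j : Fin m =>
        f1 bl eF eL E k (eL.symm j)).getD (k : ℕ) []) =
        List.ofFn fun j : Fin m => f1 bl eF eL E k (eL.symm j) := by
      have hk : (k : ℕ) < E.length + 1 := k.2
      rw [List.getD_eq_getElem _ _ (by simpa using hk)]
      simp
    have h2 : ((List.ofFn fun j : Fin m => f1 bl eF eL E k (eL.symm j)).getD (eL a) (0, 0)) =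
        f1 bl eF eL E k a := by
      rw [List.getD_eq_getElem _ _ (by simp)]
      simp
    rw [h1, h2, f1_eq bl F hlt mrk eF eL]

theorem isTable (E : List C) :
    IsTable (B + (E.length + 1)) m (table bl F hlt mrk eF eL E) := by
  have hent : ∀ i < B + (E.length + 1), ∀ j < m,
      (entry (table bl F hlt mrk eF eL E) i j).1 < B + (E.length + 1) ∧
      (entry (table bl F hlt mrk eF eL E) i j).2 < m := by
    intro i hi j hj
    obtain ⟨q, hq⟩ := (eSt bl F hlt mrk eF E).surjective ⟨i, hi⟩
    obtain ⟨a, ha⟩ := eL.surjective ⟨j, hj⟩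
    have := entry_table bl F hlt mrk eF eL E q a
    rw [hq, ha] at this
    rw [this]
    exact ⟨Fin.is_lt _, Fin.is_lt _⟩
  refine ⟨by simp [table], ?_⟩
  intro r hr
  obtain ⟨i, hi, hir⟩ := List.getElem_of_mem hr
  have hi' : i < B + (E.length + 1) := by simpa [table] using hi
  have hlen : r.length = m := by
    unfold table at hr
    rcases List.mem_append.mp hr with h | h
    · obtain ⟨x, rfl⟩ := (List.mem_ofFn' _ _).mp h
      simp
    · obtain ⟨x, -, rfl⟩ := List.mem_map.mp h
      simp
  refine ⟨hlen, fun e he => ?_⟩
  obtain ⟨j, hj, hje⟩ := List.getElem_of_mem he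
  have := hent i hi' j (by omega)
  unfold entry at this
  rw [List.getD_eq_getElem _ _ hi, hir, List.getD_eq_getElem _ _ hj, hje] at this
  exact this

theorem ofTable_weaklyReset (E : List C) :
    (ofTable _ _ _ (isTable bl F hlt mrk eF eL E)).WeaklyReset ↔
      (mealy (sysE bl F hlt mrk E)).WeaklyReset := by
  have hne : Nonempty (Fin (B + (E.length + 1))) := ⟨eSt bl F hlt mrk eF E (.inl n0)⟩
  have hδ : ∀ q a, (ofTable _ _ _ (isTable bl F hlt mrk eF eL E)).δ
      (eSt bl F hlt mrk eF E q) (eL a) =
      eSt bl F hlt mrk eF E ((mealy (sysE bl F hlt mrk E)).δ q a) := by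
    intro q a
    apply Fin.ext
    exact congrArg Prod.fst (entry_table bl F hlt mrk eF eL E q a)
  have ho : ∀ q a, (ofTable _ _ _ (isTable bl F hlt mrk eF eL E)).out
      (eSt bl F hlt mrk eF E q) (eL a) =
      eL ((mealy (sysE bl F hlt mrk E)).out q a) := by
    intro q a
    apply Fin.ext
    exact congrArg Prod.snd (entry_table bl F hlt mrk eF eL E q a)
  exact ⟨Mealy.weaklyReset_iso_symm (eSt bl F hlt mrk eF E) eL hδ ho,
    Mealy.weaklyReset_iso (eSt bl F hlt mrk eF E) eL hδ ho⟩

/-- The table is a primitive recursive function of the initial content. -/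
theorem primrec_table [Finite C] [Primcodable C] : Primrec (table bl F hlt mrk eF eL) := by
  unfold table
  refine Primrec.list_append.comp (Primrec.const _) ?_
  refine Primrec.list_map (Primrec.list_range.comp (Primrec.succ.comp Primrec.list_length)) ?_
  refine Primrec.list_ofFn fun j => ?_
  have hidx : Primrec (fun c : C => (eL (cell c) : ℕ)) := Primrec.dom_finite _
  cases eL.symm j with
  | lb => exact Primrec.const _
  | lock =>
    refine Primrec.pair (Primrec.const _) ?_
    exact Primrec.ite (Primrec.nat_lt.comp Primrec.snd (Primrec.list_length.comp Primrec.fst))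
      (Primrec.const _) (Primrec.const _)
  | z => exact Primrec.const _
  | cell c =>
    refine Primrec.pair ?_ ?_
    · refine Primrec.nat_add.comp (Primrec.const _) ?_
      exact Primrec.nat_min.comp (Primrec.succ.comp Primrec.snd)
        (Primrec.list_length.comp Primrec.fst)
    · exact hidx.comp ((Primrec.list_getD bl).comp Primrec.fst Primrec.snd)

end

instance finite_Lt {C : Type} [Finite C] : Finite (Lt C) := by
  refine Finite.of_injective (β := Fin 3 ⊕ C) (fun x => match x with
    | lb => .inl 0 | lock => .inl 1 | z => .inl 2 | cell c => .inr c) ?_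
  intro x y
  cases x <;> cases y <;> simp

instance finite_Fx {C : Type} [Finite C] : Finite (Fx C) := by
  refine Finite.of_injective (β := Fin 5 ⊕ (C × C)) (fun x => match x with
    | n0 => .inl 0 | n1 => .inl 1 | Iun => .inl 2 | T => .inl 3 | D => .inl 4
    | arm a b => .inr (a, b)) ?_
  intro x y
  cases x <;> cases y <;> simp

/-- There is no algorithm that decides, given the table of a Mealy automaton, whether it is
weakly reset. -/
theorem undecidable : ¬ ∃ f : ℕ × ℕ × List (List (ℕ × ℕ)) → Bool, Computable f ∧
    ∀ (n m : ℕ) (T : List (List (ℕ × ℕ))) (h : IsTable n m T), 0 < n → 0 < m →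
      (f (n, m, T) = true ↔ (ofTable n m T h).WeaklyReset) := by
  rintro ⟨f, hf, hdec⟩
  obtain ⟨g, l, M, inp, hinp, hund⟩ := Halt56.exists_undecidable_tm0
  obtain ⟨B, ⟨eF⟩⟩ := Finite.exists_equiv_fin (Fx (Fin (g + 1) × Option (Fin (l + 1)) × Bool))
  obtain ⟨m, ⟨eL⟩⟩ := Finite.exists_equiv_fin (Lt (Fin (g + 1) × Option (Fin (l + 1)) × Bool))
  let cont : List (Fin (g + 1)) → List (Fin (g + 1) × Option (Fin (l + 1)) × Bool) := fun L =>
    (L.headI, some default, true) :: L.tail.map fun a => (a, none, false)
  have hcont : Primrec cont := by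
    refine Primrec.list_cons.comp ?_ ?_
    · exact Primrec.pair Primrec.list_headI (Primrec.const _)
    · exact Primrec.list_map Primrec.list_tail (Primrec.pair Primrec.snd (Primrec.const _))
  let tab : List (Fin (g + 1)) → List (List (ℕ × ℕ)) := fun L =>
    table (tmSys M []).bl (tmSys M []).F (tmSys M []).hlt (tmSys M []).mrk eF eL (cont L)
  have htab : Primrec tab := (primrec_table _ _ _ _ eF eL).comp hcont
  have hnum : Primrec fun L => B + ((cont L).length + 1) :=
    Primrec.nat_add.comp (Primrec.const _) (Primrec.succ.comp (Primrec.list_length.comp hcont))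
  have hall : Primrec fun L => (B + ((cont L).length + 1), m, tab L) :=
    Primrec.pair hnum (Primrec.pair (Primrec.const _) htab)
  have hB : 0 < B := (eF n0).pos
  have hm : 0 < m := (eL lb).pos
  apply hund
  rw [ComputablePred.computable_iff]
  refine ⟨fun k => f (B + ((cont (inp k)).length + 1), m, tab (inp k)),
    hf.comp (hall.to_comp.comp hinp), ?_⟩
  funext k
  apply propext
  have h1 := hdec _ _ _ (isTable (tmSys M []).bl (tmSys M []).F (tmSys M []).hlt (tmSys M []).mrk
    eF eL (cont (inp k))) (by omega) hm
  have h2 := ofTable_weaklyReset (tmSys M []).bl (tmSys M []).F (tmSys M []).hlt (tmSys M []).mrk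
    eF eL (cont (inp k))
  exact ((weaklyReset_iff_halts M (inp k)).symm.trans h2.symm).trans h1.symm

end Pool.Agent.Lib.MP_5b5905_lc
end
end
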